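import Pool.Agent.SawNice.Ham
import Pool.Agent.SawDiff.Lat

/-!
# Nice near-misses on the lattice
-/

set_option autoImplicit false

namespace Pool.Agent.SawNice

open Finset Pool.Agent.Bub4 Pool.Agent.SubBall

section lat

variable {m : ℕ} {μ : ℝ} (hμ : 0 < μ)

theorem lat_adj (i : Fin (m + 2)) (x : Vt m) : Adj (lat m hμ) x (x + Pi.single i 1) := by
  refine ⟨(i, true), ?_⟩
  show stv m (i, true) = _
  simp [stv]

/-- Hamiltonian paths of boxes in the coordinate subspaces -/
theorem box_path (r k : ℕ) (hk : k ≤ m + 1) : ∃ l : List (Vt m), l.Nodup ∧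
    l.IsChain (Adj (lat m hμ)) ∧ ∀ x, x ∈ l ↔ (∀ i : Fin (m + 2), (i : ℕ) < k → |x i| ≤ r) ∧
      ∀ i : Fin (m + 2), k ≤ (i : ℕ) → x i = 0 := by
  induction k with
  | zero =>
    refine ⟨[0], by simp, by simp, fun x => ?_⟩
    rw [List.mem_singleton]
    constructor
    · rintro rfl
      exact ⟨fun i hi => absurd hi (by omega), fun i _ => rfl⟩
    · rintro ⟨_, h⟩
      funext i
      exact h i (by omega)
  | succ k ih =>
    obtain ⟨l, h1, h2, h3⟩ := ih (by omega)
    set K : Fin (m + 2) := ⟨k, by omega⟩ with hK
    set e : Vt m := Pi.single K 1 with he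
    have heK : e K = 1 := by simp [he]
    have hei : ∀ i, i ≠ K → e i = 0 := fun i hi => by simp [he, hi]
    have hl0 : (0 : Vt m) ∈ l := (h3 0).2 ⟨fun i _ => by simp, fun i _ => rfl⟩
    have hlne : l ≠ [] := List.ne_nil_of_mem hl0
    have hκ : ∀ x ∈ l, co m K x = 0 := fun x hx => ((h3 x).1 hx).2 K (by simp [hK])
    have hκe : co m K e = 1 := heK
    refine ⟨(snake l e (2 * r + 1)).map fun x => x + -(r • e), ?_, ?_, ?_⟩
    · exact (snake_nodup h1 hκ hκe _).map fun a b hab => add_right_cancel hab
    · exact chain_add (snake_chain hlne h2 (lat_adj hμ K) _) _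
    · intro x
      rw [List.mem_map]
      constructor
      · rintro ⟨y, hy, rfl⟩
        obtain ⟨j, hj, z, hz, rfl⟩ := mem_snake.1 hy
        have hz' := (h3 z).1 hz
        constructor
        · intro i hi
          by_cases hiK : i = K
          · subst hiK
            have e1 : (z + j • e + -(r • e)) K = (j : ℤ) - r := by
              simp only [Pi.add_apply, Pi.neg_apply, Pi.smul_apply, heK, hz'.2 K (by simp [hK])]
              simp
              ring
            rw [e1, abs_le]
            constructor <;> omega
          · have e1 : (z + j • e + -(r • e)) i = z i := by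
              simp only [Pi.add_apply, Pi.neg_apply, Pi.smul_apply, hei i hiK]
              simp
            rw [e1]
            refine hz'.1 i ?_
            have : (i : ℕ) ≠ k := fun h => hiK (Fin.ext h)
            omega
        · intro i hi
          have hiK : i ≠ K := by
            rintro rfl
            simp [hK] at hi
          have e1 : (z + j • e + -(r • e)) i = z i := by
            simp only [Pi.add_apply, Pi.neg_apply, Pi.smul_apply, hei i hiK]
            simp
          rw [e1]
          exact hz'.2 i (by omega)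
      · rintro ⟨ha, hb⟩
        have hxK := ha K (by simp [hK])
        rw [abs_le] at hxK
        obtain ⟨j, hj⟩ := Int.eq_ofNat_of_zero_le (show 0 ≤ x K + r by omega)
        refine ⟨x + r • e, mem_snake.2 ⟨j, by omega, x - x K • e, (h3 _).2 ⟨?_, ?_⟩, ?_⟩, by abel⟩
        · intro i hi
          have hiK : i ≠ K := by
            rintro rfl
            simp [hK] at hi
          have e1 : (x - x K • e) i = x i := by
            simp only [Pi.sub_apply, Pi.smul_apply, hei i hiK]
            simp
          rw [e1]
          exact ha i (by omega)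
        · intro i hi
          by_cases hiK : i = K
          · subst hiK
            simp [heK]
          · have e1 : (x - x K • e) i = x i := by
              simp only [Pi.sub_apply, Pi.smul_apply, hei i hiK]
              simp
            rw [e1]
            refine hb i ?_
            have : (i : ℕ) ≠ k := fun h => hiK (Fin.ext h)
            omega
        · funext i
          by_cases hiK : i = K
          · subst hiK
            simp only [Pi.add_apply, Pi.sub_apply, Pi.smul_apply, heK]
            simp
            omega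
          · simp only [Pi.add_apply, Pi.sub_apply, Pi.smul_apply, hei i hiK]
            simp

/-- Every box is contained in a finite set with the property `Arc`. -/
theorem exists_arc (r : ℕ) : ∃ D : Finset (Vt m), (∀ x : Vt m, (∀ i, |x i| ≤ r) → x ∈ D) ∧
    Arc (lat m hμ) D := by
  classical
  -- it is enough to treat `r ≥ 1`
  suffices H : ∀ r : ℕ, 1 ≤ r → ∃ D : Finset (Vt m), (∀ x : Vt m, (∀ i, |x i| ≤ r) → x ∈ D) ∧
      Arc (lat m hμ) D by
    obtain ⟨D, h1, h2⟩ := H (r + 1) (by omega)
    refine ⟨D, fun x hx => h1 x fun i => (hx i).trans ?_, h2⟩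
    push_cast
    omega
  intro r hr
  obtain ⟨l, h1, h2, h3⟩ := box_path (m := m) hμ r (m + 1) le_rfl
  set K : Fin (m + 2) := Fin.last (m + 1) with hK
  set e : Vt m := Pi.single K 1 with he
  have heK : e K = 1 := by simp [he]
  have hei : ∀ i, i ≠ K → e i = 0 := fun i hi => by simp [he, hi]
  have hκe : co m K e = 1 := heK
  have hκ : ∀ x ∈ l, co m K x = 0 := fun x hx => ((h3 x).1 hx).2 K (by simp [hK])
  -- two elements
  have hl0 : (0 : Vt m) ∈ l := (h3 0).2 ⟨fun i _ => by simp, fun i _ => rfl⟩
  have hl1 : (Pi.single 0 1 : Vt m) ∈ l := by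
    refine (h3 _).2 ⟨fun i _ => ?_, fun i hi => ?_⟩
    · by_cases hi : i = 0
      · subst hi; simp; omega
      · simp [hi]
    · have : i ≠ 0 := by
        rintro rfl
        simp at hi
      simp [this]
  have h01 : (0 : Vt m) ≠ Pi.single 0 1 := by
    intro h
    have := congrFun h 0
    simp at this
  obtain ⟨x0, l1, rfl⟩ : ∃ x0 l1, l = x0 :: l1 := List.exists_cons_of_ne_nil
    (List.ne_nil_of_mem hl0)
  have hl1ne : l1 ≠ [] := by
    rintro rfl
    rw [List.mem_singleton] at hl0 hl1
    exact h01 (hl0.trans hl1.symm)
  obtain ⟨L, hne, c1, c2, c3, c4⟩ := cycle_list hl1ne h1 h2 (lat_adj hμ K) hκ hκe r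
  set L' : List (Vt m) := L.map fun x => x + -(r • e) with hL'
  have hne' : L' ≠ [] := by simp [hL', hne]
  have hcyc := cyc_of_list (lat m hμ) hne' (c1.map fun a b hab => add_right_cancel hab)
    (chain_add c2 _) (by
      simp only [hL']
      rw [List.getLast_map, List.head_map]
      exact adj_add _ c3 _)
  have hcov : ∀ x : Vt m, (∀ i, |x i| ≤ r) → x ∈ L'.toFinset := by
    intro x hx
    rw [List.mem_toFinset, hL', List.mem_map]
    have hxK := hx K
    rw [abs_le] at hxK
    obtain ⟨j, hj⟩ := Int.eq_ofNat_of_zero_le (show 0 ≤ x K + r by omega)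
    refine ⟨x + r • e, (c4 _).2 ⟨j, by omega, x - x K • e, (h3 _).2 ⟨?_, ?_⟩, ?_⟩, by abel⟩
    · intro i hi
      have hiK : i ≠ K := by
        rintro rfl
        simp [hK] at hi
      have e1 : (x - x K • e) i = x i := by
        simp only [Pi.sub_apply, Pi.smul_apply, hei i hiK]
        simp
      rw [e1]
      exact hx i
    · intro i hi
      have hiK : i = K := by
        apply Fin.ext
        have := i.2
        simp only [hK, Fin.val_last]
        omega
      subst hiK
      simp [heK]
    · funext i
      by_cases hiK : i = K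
      · subst hiK
        simp only [Pi.add_apply, Pi.sub_apply, Pi.smul_apply, heK]
        simp
        omega
      · have e1 := hei i hiK
        rw [he] at e1
        simp only [Pi.add_apply, Pi.sub_apply, Pi.smul_apply, e1, hei i hiK]
        simp
  refine ⟨L'.toFinset, hcov, ?_⟩
  have hP : 0 < L'.length := List.length_pos_iff.2 hne'
  refine hcyc.arc _ hP (fun x => ?_) (hcov 0 fun i => by simp)
  rw [List.mem_toFinset]
  constructor
  · intro h
    obtain ⟨i, hi, hx⟩ := List.mem_iff_getElem.1 h
    refine ⟨i, ?_⟩
    simp only [Nat.mod_eq_of_lt hi]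
    exact hx
  · rintro ⟨i, hi⟩
    rw [← hi]
    exact List.getElem_mem _

open Classical in
/-- LEMMA N on the lattice: for every box size `r` there is a finite set `D` containing the box
such that for every `M` the weighted number of nice near-misses is bounded. -/
theorem lat_nice {K : ℝ} (hK : ∀ n, (lat m hμ).a n ≤ K) (r : ℕ) :
    ∃ D : Finset (Vt m), (∀ x : Vt m, (∀ i, |x i| ≤ r) → x ∈ D) ∧ ∀ M : ℕ, ∃ C : ℝ, 0 ≤ C ∧
      ∀ n n', ((lat m hμ).E n fun u => (lat m hμ).E n' fun v => (lat m hμ).sv (u ++ v) *
        (((range (n' + 1)).filter fun t => Nice (lat m hμ) D M u v t).card : ℝ)) ≤ C := by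
  obtain ⟨D, h1, h2⟩ := exists_arc (m := m) hμ r
  exact ⟨D, h1, fun M => nice_bound (lat m hμ) h2 hK M⟩

end lat

end Pool.Agent.SawNice
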