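import Pool.Agent.SawNice.Nice

/-!
# Arcs of Hamiltonian cycles

A finite set of vertices which is the vertex set of a closed self-avoiding path and contains `0`
has the property `Arc`.
-/

set_option autoImplicit false

namespace Pool.Agent.SawNice

open Finset Pool.Agent.Bub4

section gen

variable {S V : Type} [Fintype S] [AddCommGroup V] (Y : Sys S V)

/-- neighbours -/
def Adj (x y : V) : Prop := ∃ s, Y.vec s = y - x

theorem adj_symm {x y : V} (h : Adj Y x y) : Adj Y y x := by
  obtain ⟨s, hs⟩ := h
  exact ⟨Y.neg s, by rw [Y.vec_neg, hs, neg_sub]⟩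

theorem adj_add {x y : V} (h : Adj Y x y) (z : V) : Adj Y (x + z) (y + z) := by
  obtain ⟨s, hs⟩ := h
  exact ⟨s, by rw [hs]; abel⟩

/-- a path of points gives a word -/
theorem word_of_path (c : ℕ → V) (h : ∀ i, Adj Y (c i) (c (i + 1))) (i n : ℕ) :
    ∃ b : List S, b.length = n ∧ ∀ k ≤ n, c i + Y.sm (b.take k) = c (i + k) := by
  induction n with
  | zero => exact ⟨[], rfl, fun k hk => by
      obtain rfl : k = 0 := by omega
      simp⟩
  | succ n ih =>
    obtain ⟨b, hb, hb2⟩ := ih
    obtain ⟨s, hs⟩ := h (i + n)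
    refine ⟨b ++ [s], by simp [hb], fun k hk => ?_⟩
    rcases Nat.lt_or_ge n k with h1 | h1
    · obtain rfl : k = n + 1 := by omega
      rw [List.take_of_length_le (by simp [hb]), Y.sm_append, ← add_assoc]
      have h2 := hb2 n le_rfl
      rw [List.take_of_length_le (by omega)] at h2
      rw [h2]
      simp only [Y.sm_cons, Y.sm_nil, hs]
      rw [← add_assoc i n 1]
      abel
    · rw [List.take_append_of_le_length (by omega)]
      exact hb2 k h1

/-- a closed self-avoiding path of length `P`, continued periodically -/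
structure Cyc (c : ℕ → V) (P : ℕ) : Prop where
  per : ∀ i, c (i + P) = c i
  adj : ∀ i, Adj Y (c i) (c (i + 1))
  inj : ∀ i j, i < j → j < i + P → c i ≠ c j

theorem arc_word {c : ℕ → V} (hc : ∀ i, Adj Y (c i) (c (i + 1))) {D : Finset V} {i n : ℕ}
    (hD : ∀ k ≤ n, c (i + k) ∈ D) (hinj : ∀ k k', k < k' → k' ≤ n → c (i + k) ≠ c (i + k'))
    (h0 : ∃ k ≤ n, c (i + k) = 0) : ∃ b : List S, c i + Y.sm b = c (i + n) ∧ Y.Saw b ∧
      (∀ k ≤ b.length, c i + Y.sm (b.take k) ∈ D) ∧
      ∃ k ≤ b.length, c i + Y.sm (b.take k) = 0 := by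
  obtain ⟨b, hb, hb2⟩ := word_of_path Y c hc i n
  refine ⟨b, ?_, ?_, ?_, ?_⟩
  · have := hb2 n le_rfl
    rwa [List.take_of_length_le (by omega)] at this
  · rw [saw_iff]
    intro k k' hk hk' he
    rw [hb] at hk'
    refine hinj k k' hk hk' ?_
    rw [← hb2 k (by omega), ← hb2 k' hk', he]
  · intro k hk
    rw [hb] at hk
    rw [hb2 k hk]
    exact hD k hk
  · obtain ⟨k, hk, hk0⟩ := h0
    exact ⟨k, by omega, by rw [hb2 k hk]; exact hk0⟩

theorem Cyc.arc {c : ℕ → V} {P : ℕ} (h : Cyc Y c P) (hP : 0 < P) {D : Finset V}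
    (hD : ∀ x, x ∈ D ↔ ∃ i, c i = x) (h0 : (0 : V) ∈ D) : Arc Y D := by
  have hper : ∀ n i, c (i + n * P) = c i := by
    intro n
    induction n with
    | zero => intro i; simp
    | succ n ih =>
      intro i
      rw [Nat.succ_mul, ← add_assoc, h.per, ih]
  have hmod : ∀ i j, ∃ k, i ≤ k ∧ k < i + P ∧ c k = c j := by
    intro i j
    refine ⟨i + (j + (i * P - i)) % P, by omega, ?_, ?_⟩
    · have := Nat.mod_lt (j + (i * P - i)) hP
      omega
    · have h1 := Nat.div_add_mod (j + (i * P - i)) P
      set q := (j + (i * P - i)) / P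
      set r := (j + (i * P - i)) % P
      rw [← hper q (i + r)]
      have h2 : i ≤ i * P := Nat.le_mul_of_pos_right i hP
      have h3 : i + r + q * P = j + i * P := by
        rw [mul_comm q P]
        omega
      rw [h3, hper]
  intro p hp q hq hpq
  obtain ⟨i, rfl⟩ := (hD p).1 hp
  obtain ⟨j', rfl⟩ := (hD q).1 hq
  obtain ⟨k', hk'⟩ := (hD 0).1 h0
  obtain ⟨j, hj1, hj2, hj3⟩ := hmod i j'
  obtain ⟨k, hk1, hk2, hk3⟩ := hmod i k'
  rw [hk'] at hk3
  have hij : i ≠ j := by
    rintro rfl
    exact hpq hj3
  rcases Nat.lt_or_ge j k with hjk | hjk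
  · -- backwards from `i + P` to `j`
    set d : ℕ → V := fun n => c (i + n * P + P - n) with hd
    have hd' : ∀ n, n ≤ P → d n = c (i + P - n) := by
      intro n hn
      have : i + n * P + P - n = i + P - n + n * P := by omega
      simp only [hd]
      rw [this, hper]
    have hle : ∀ n, n ≤ n * P := fun n => Nat.le_mul_of_pos_right n hP
    have hadj : ∀ n, Adj Y (d n) (d (n + 1)) := by
      intro n
      simp only [hd]
      have e1 : i + (n + 1) * P + P - (n + 1) = i + n * P + P - n - 1 + P := by
        have := hle n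
        rw [Nat.succ_mul]
        omega
      rw [e1, h.per]
      have e2 : i + n * P + P - n = i + n * P + P - n - 1 + 1 := by
        have := hle n
        omega
      have h3 := h.adj (i + n * P + P - n - 1)
      rw [← e2] at h3
      exact adj_symm Y h3
    have hd0 : d 0 = c i := by
      rw [hd' 0 (Nat.zero_le _)]
      exact h.per i
    have hdj : d (0 + (i + P - j)) = c j' := by
      rw [zero_add, hd' _ (by omega), ← hj3]
      congr 1
      omega
    have key := arc_word Y (c := d) hadj (D := D) (i := 0) (n := i + P - j) ?_ ?_ ?_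
    · rw [hd0, hdj] at key
      exact key
    · intro n hn
      rw [zero_add, hd' n (by omega)]
      exact (hD _).2 ⟨_, rfl⟩
    · intro n n' hn hn'
      rw [zero_add, zero_add, hd' n (by omega), hd' n' (by omega)]
      exact (h.inj (i + P - n') (i + P - n) (by omega) (by omega)).symm
    · refine ⟨i + P - k, by omega, ?_⟩
      rw [zero_add, hd' _ (by omega), ← hk3]
      congr 1
      omega
  · have key := arc_word Y (c := c) h.adj (D := D) (i := i) (n := j - i) ?_ ?_ ?_
    · have : i + (j - i) = j := by omega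
      rw [this, hj3] at key
      exact key
    · intro n _
      exact (hD _).2 ⟨_, rfl⟩
    · intro n n' hn hn'
      exact h.inj (i + n) (i + n') (by omega) (by omega)
    · refine ⟨k - i, by omega, ?_⟩
      rw [← hk3]
      congr 1
      omega

/-- a list gives a cycle -/
theorem cyc_of_list {L : List V} (hne : L ≠ []) (hnd : L.Nodup) (hch : L.IsChain (Adj Y))
    (hcl : Adj Y (L.getLast hne) (L.head hne)) :
    Cyc Y (fun i => L[i % L.length]'(Nat.mod_lt _ (List.length_pos_iff.2 hne))) L.length := by
  have hP : 0 < L.length := List.length_pos_iff.2 hne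
  refine ⟨fun i => ?_, fun i => ?_, fun i j hij hj he => ?_⟩
  · simp
  · rcases Nat.lt_or_ge (i % L.length + 1) L.length with h1 | h1
    · have e1 : (i + 1) % L.length = i % L.length + 1 := by
        rw [Nat.add_mod, Nat.mod_eq_of_lt (show 1 < L.length by omega), Nat.mod_eq_of_lt h1]
      have h2 := List.isChain_iff_getElem.1 hch (i % L.length) h1
      simp only [e1]
      exact h2
    · have h2 : i % L.length + 1 = L.length := by
        have := Nat.mod_lt i hP
        omega
      have e1 : (i + 1) % L.length = 0 := by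
        rw [← Nat.mod_add_mod, h2, Nat.mod_self]
      simp only [e1]
      rw [List.getLast_eq_getElem, List.head_eq_getElem] at hcl
      have e2 : L.length - 1 = i % L.length := by omega
      simp only [e2] at hcl
      exact hcl
  · have h1 := (List.Nodup.getElem_inj_iff hnd).1 he
    have h2 : j ≡ i [MOD L.length] := h1.symm
    have h3 : L.length ∣ j - i := (Nat.modEq_iff_dvd' hij.le).1 h2.symm
    have h4 := Nat.le_of_dvd (by omega) h3
    omega

end gen

end Pool.Agent.SawNice
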