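import Pool.Agent.SawNice.Cyc
import Pool.Agent.Bub4.Bridge

/-!
# Boxes with Hamiltonian cycles

The lattice `ℤ^(m+2)` has finite sets with the property `Arc` containing any given box.
-/

set_option autoImplicit false

namespace Pool.Agent.SawNice

open Finset Pool.Agent.Bub4

section gen

variable {S V : Type} [Fintype S] [AddCommGroup V] (Y : Sys S V)

/-- the layer number `n` of a snake -/
def layer (l : List V) (e : V) (n : ℕ) : List V :=
  (if Even n then l else l.reverse).map fun x => x + n • e

/-- the first `n` layers -/
def snake (l : List V) (e : V) : ℕ → List V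
  | 0 => []
  | n + 1 => snake l e n ++ layer l e n

/-- a column -/
def col (x e : V) : ℕ → List V
  | 0 => []
  | n + 1 => (x + (n + 1) • e) :: col x e n

theorem mem_layer {l : List V} {e : V} {n : ℕ} {x : V} :
    x ∈ layer l e n ↔ ∃ y ∈ l, y + n • e = x := by
  unfold layer
  split_ifs <;> simp

theorem mem_snake {l : List V} {e : V} {n : ℕ} {x : V} :
    x ∈ snake l e n ↔ ∃ j < n, ∃ y ∈ l, y + j • e = x := by
  induction n with
  | zero => simp [snake]
  | succ n ih =>
    simp only [snake, List.mem_append, ih, mem_layer]
    constructor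
    · rintro (⟨j, hj, h⟩ | h)
      · exact ⟨j, by omega, h⟩
      · exact ⟨n, by omega, h⟩
    · rintro ⟨j, hj, h⟩
      rcases Nat.lt_or_ge j n with h1 | h1
      · exact Or.inl ⟨j, h1, h⟩
      · obtain rfl : j = n := by omega
        exact Or.inr h

theorem mem_col {x e : V} {n : ℕ} {y : V} :
    y ∈ col x e n ↔ ∃ j, 1 ≤ j ∧ j ≤ n ∧ x + j • e = y := by
  induction n with
  | zero =>
    simp only [col, List.not_mem_nil, false_iff]
    rintro ⟨j, h1, h2, _⟩
    omega
  | succ n ih =>
    simp only [col, List.mem_cons, ih]
    constructor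
    · rintro (h | ⟨j, h1, h2, h3⟩)
      · exact ⟨n + 1, by omega, le_rfl, h.symm⟩
      · exact ⟨j, h1, by omega, h3⟩
    · rintro ⟨j, h1, h2, h3⟩
      rcases Nat.lt_or_ge n j with h4 | h4
      · obtain rfl : j = n + 1 := by omega
        exact Or.inl h3.symm
      · exact Or.inr ⟨j, h1, h4, h3⟩

variable {Y}

theorem chain_add {l : List V} (h : l.IsChain (Adj Y)) (z : V) :
    (l.map fun x => x + z).IsChain (Adj Y) := by
  rw [List.isChain_map]
  exact h.imp fun a b hab => adj_add Y hab z

theorem layer_chain {l : List V} (h : l.IsChain (Adj Y)) (e : V) (n : ℕ) :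
    (layer l e n).IsChain (Adj Y) := by
  unfold layer
  split_ifs
  · exact chain_add h _
  · refine chain_add ?_ _
    rw [List.isChain_reverse]
    exact h.imp fun a b hab => adj_symm Y hab

theorem layer_adj (l : List V) {e : V} (he : ∀ x, Adj Y x (x + e)) (n : ℕ) :
    ∀ x ∈ (layer l e n).getLast?, ∀ y ∈ (layer l e (n + 1)).head?, Adj Y x y := by
  intro x hx y hy
  have key : ∀ z : V, Adj Y (z + n • e) (z + (n + 1) • e) := by
    intro z
    have := he (z + n • e)
    rwa [add_assoc, ← succ_nsmul] at this
  unfold layer at hx hy
  by_cases h : Even n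
  · rw [if_pos h] at hx
    rw [if_neg (Nat.not_even_iff_odd.2 h.add_one)] at hy
    rw [List.getLast?_map] at hx
    rw [List.head?_map, List.head?_reverse] at hy
    obtain ⟨a, ha, rfl⟩ := Option.mem_map.1 hx
    obtain ⟨b, hb, rfl⟩ := Option.mem_map.1 hy
    obtain rfl := Option.mem_unique ha hb
    exact key a
  · rw [if_neg h] at hx
    rw [if_pos (Nat.not_even_iff_odd.1 h).add_one] at hy
    rw [List.getLast?_map, List.getLast?_reverse] at hx
    rw [List.head?_map] at hy
    obtain ⟨a, ha, rfl⟩ := Option.mem_map.1 hx
    obtain ⟨b, hb, rfl⟩ := Option.mem_map.1 hy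
    obtain rfl := Option.mem_unique ha hb
    exact key a

theorem snake_chain {l : List V} (hl : l ≠ []) (h : l.IsChain (Adj Y)) {e : V}
    (he : ∀ x, Adj Y x (x + e)) (n : ℕ) : (snake l e n).IsChain (Adj Y) := by
  induction n with
  | zero => simp [snake]
  | succ n ih =>
    rw [snake, List.isChain_append]
    refine ⟨ih, layer_chain h e n, ?_⟩
    intro x hx y hy
    cases n with
    | zero => simp [snake] at hx
    | succ n =>
      have h1 : layer l e n ≠ [] := by
        intro h0
        have := congrArg List.length h0
        unfold layer at this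
        split_ifs at this <;> simp at this <;> exact hl this
      rw [snake, List.getLast?_append_of_ne_nil _ h1] at hx
      exact layer_adj l he n x hx y hy

theorem col_chain {x e : V} (he : ∀ x, Adj Y x (x + e)) (n : ℕ) :
    (col x e n).IsChain (Adj Y) := by
  induction n with
  | zero => simp [col]
  | succ n ih =>
    cases n with
    | zero => simp [col]
    | succ n =>
      rw [col, col, List.isChain_cons_cons]
      refine ⟨?_, by rw [col] at ih; exact ih⟩
      have := he (x + (n + 1) • e)
      rw [add_assoc, ← succ_nsmul] at this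
      exact adj_symm Y this

/-- elements of `l` are at level `0` -/
theorem layer_nodup {l : List V} (h : l.Nodup) (e : V) (n : ℕ) : (layer l e n).Nodup := by
  unfold layer
  refine List.Nodup.map (fun a b hab => by simpa using hab) ?_
  split_ifs
  · exact h
  · exact List.nodup_reverse.2 h

theorem snake_nodup {l : List V} (h : l.Nodup) {e : V} {κ : V →+ ℤ} (hκ : ∀ x ∈ l, κ x = 0)
    (hκe : κ e = 1) (n : ℕ) : (snake l e n).Nodup := by
  induction n with
  | zero => simp [snake]
  | succ n ih =>
    rw [snake, List.nodup_append]
    refine ⟨ih, layer_nodup h e n, ?_⟩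
    intro x hx y hy hxy
    subst hxy
    obtain ⟨j, hj, a, ha, h1⟩ := mem_snake.1 hx
    obtain ⟨b, hb, h2⟩ := mem_layer.1 hy
    have h3 := congrArg κ (h1.trans h2.symm)
    simp only [map_add, map_nsmul, hκ a ha, hκ b hb, hκe, nsmul_eq_mul, mul_one, zero_add] at h3
    have : j = n := by exact_mod_cast h3
    omega

theorem col_nodup {x e : V} {κ : V →+ ℤ} (hκe : κ e = 1) (n : ℕ) : (col x e n).Nodup := by
  induction n with
  | zero => simp [col]
  | succ n ih =>
    rw [col, List.nodup_cons]
    refine ⟨?_, ih⟩
    intro h
    obtain ⟨j, h1, h2, h3⟩ := mem_col.1 h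
    have h4 := congrArg κ h3
    simp only [map_add, map_nsmul, hκe, nsmul_eq_mul, mul_one] at h4
    have : j = n + 1 := by
      have := add_left_cancel h4
      exact_mod_cast this
    omega

/-- the closed path -/
theorem cycle_list {x : V} {l : List V} (hl : l ≠ []) (hnd : (x :: l).Nodup)
    (hch : (x :: l).IsChain (Adj Y)) {e : V} (he : ∀ x, Adj Y x (x + e)) {κ : V →+ ℤ}
    (hκ : ∀ y ∈ x :: l, κ y = 0) (hκe : κ e = 1) (r : ℕ) :
    ∃ L : List V, ∃ hne : L ≠ [], L.Nodup ∧ L.IsChain (Adj Y) ∧
      Adj Y (L.getLast hne) (L.head hne) ∧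
      ∀ y, y ∈ L ↔ ∃ j < 2 * r + 2, ∃ z ∈ x :: l, z + j • e = y := by
  have hnd' := List.nodup_cons.1 hnd
  have hκx : κ x = 0 := hκ x (by simp)
  have hκl : ∀ y ∈ l, κ y = 0 := fun y hy => hκ y (List.mem_cons_of_mem _ hy)
  have hch' : l.IsChain (Adj Y) := by
    cases l with
    | nil => exact absurd rfl hl
    | cons a l => exact (List.isChain_cons_cons.1 hch).2
  refine ⟨x :: (snake l e (2 * r + 2) ++ col x e (2 * r + 1)), by simp, ?_, ?_, ?_, ?_⟩
  · rw [List.nodup_cons, List.nodup_append]
    refine ⟨?_, snake_nodup hnd'.2 hκl hκe _, col_nodup hκe _, ?_⟩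
    · rw [List.mem_append]
      rintro (h | h)
      · obtain ⟨j, _, a, ha, h1⟩ := mem_snake.1 h
        have h2 := congrArg κ h1
        simp only [map_add, map_nsmul, hκl a ha, hκx, hκe, nsmul_eq_mul, mul_one, zero_add] at h2
        have h3 : j = 0 := by exact_mod_cast h2
        rw [h3, zero_nsmul, add_zero] at h1
        exact hnd'.1 (h1 ▸ ha)
      · obtain ⟨j, h1, _, h3⟩ := mem_col.1 h
        have h2 := congrArg κ h3
        simp only [map_add, map_nsmul, hκx, hκe, nsmul_eq_mul, mul_one, zero_add] at h2
        have h4 : j = 0 := by exact_mod_cast h2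
        omega
    · intro y hy z hz hyz
      subst hyz
      obtain ⟨j, _, a, ha, h1⟩ := mem_snake.1 hy
      obtain ⟨j', _, _, h3⟩ := mem_col.1 hz
      have h2 := congrArg κ (h1.trans h3.symm)
      simp only [map_add, map_nsmul, hκl a ha, hκx, hκe, nsmul_eq_mul, mul_one, zero_add] at h2
      have h4 : j = j' := by exact_mod_cast h2
      rw [← h3, h4] at h1
      have h5 := add_right_cancel h1
      exact hnd'.1 (h5 ▸ ha)
  · have h1 : ((x :: l) ++ []).IsChain (Adj Y) := by simpa using hch
    rw [show x :: (snake l e (2 * r + 2) ++ col x e (2 * r + 1)) =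
      [x] ++ (snake l e (2 * r + 2) ++ col x e (2 * r + 1)) by rfl]
    rw [List.isChain_append]
    refine ⟨by simp, ?_, ?_⟩
    · rw [List.isChain_append]
      refine ⟨snake_chain hl hch' he _, col_chain he _, ?_⟩
      intro y hy z hz
      have hne : layer l e (2 * r + 1) ≠ [] := by
        intro h0
        have := congrArg List.length h0
        unfold layer at this
        split_ifs at this <;> simp at this <;> exact hl this
      rw [snake, List.getLast?_append_of_ne_nil _ hne] at hy
      unfold layer at hy
      rw [if_neg (by rw [Nat.not_even_iff_odd]; exact ⟨r, rfl⟩), List.getLast?_map,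
        List.getLast?_reverse] at hy
      obtain ⟨a, ha, rfl⟩ := Option.mem_map.1 hy
      rw [col, List.head?_cons] at hz
      obtain rfl := Option.some.inj hz
      have h2 : Adj Y x a := by
        cases l with
        | nil => simp at ha
        | cons b l =>
          rw [List.head?_cons] at ha
          obtain rfl := Option.some.inj ha
          exact (List.isChain_cons_cons.1 hch).1
      exact adj_add Y (adj_symm Y h2) _
    · intro y hy z hz
      simp only [List.getLast?_singleton, Option.mem_def, Option.some.injEq] at hy
      subst hy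
      have h3 : (snake l e (2 * r + 2) ++ col x e (2 * r + 1)).head? = l.head? := by
        have key : ∀ n, (snake l e (n + 1)).head? = l.head? := by
          intro n
          induction n with
          | zero =>
            simp only [snake, List.nil_append]
            unfold layer
            rw [if_pos (by exact Even.zero)]
            simp
          | succ n ih =>
            rw [snake, List.head?_append, ih]
            cases l with
            | nil => exact absurd rfl hl
            | cons b l => simp
        rw [List.head?_append, key]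
        cases l with
        | nil => exact absurd rfl hl
        | cons b l => simp
      rw [h3] at hz
      cases l with
      | nil => simp at hz
      | cons b l =>
        rw [List.head?_cons] at hz
        obtain rfl := Option.some.inj hz
        exact (List.isChain_cons_cons.1 hch).1
  · rw [List.head_cons]
    have h1 : col x e (2 * r + 1) ≠ [] := by rw [col]; simp
    have h2 : (x :: (snake l e (2 * r + 2) ++ col x e (2 * r + 1))).getLast (by simp) =
        x + 1 • e := by
      rw [List.getLast_cons (by simp [h1]), List.getLast_append_of_ne_nil _ h1]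
      have key : ∀ n, ∀ h : col x e (n + 1) ≠ [], (col x e (n + 1)).getLast h = x + 1 • e := by
        intro n
        induction n with
        | zero => intro h; simp [col]
        | succ n ih =>
          intro h
          have h3 : col x e (n + 1) ≠ [] := by rw [col]; simp
          have h4 := ih h3
          simp only [col] at h4 ⊢
          rw [List.getLast_cons (by simp)]
          exact h4
      exact key _ _
    rw [h2, one_nsmul]
    exact adj_symm Y (he x)
  · intro y
    rw [List.mem_cons, List.mem_append, mem_snake, mem_col]
    constructor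
    · rintro (h | ⟨j, hj, a, ha, h1⟩ | ⟨j, h1, h2, h3⟩)
      · exact ⟨0, by omega, x, by simp, by rw [h]; simp⟩
      · exact ⟨j, hj, a, List.mem_cons_of_mem _ ha, h1⟩
      · exact ⟨j, by omega, x, by simp, h3⟩
    · rintro ⟨j, hj, z, hz, h1⟩
      rcases List.mem_cons.1 hz with h2 | h2
      · subst h2
        rcases Nat.eq_zero_or_pos j with h3 | h3
        · left; rw [← h1, h3]; simp
        · right; right; exact ⟨j, h3, by omega, h1⟩
      · right; left; exact ⟨j, hj, z, h2, h1⟩

end gen

end Pool.Agent.SawNice
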