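import Pool.Agent.Bub4.Words

/-!
# Nice near-misses have bounded expectation

For self-avoiding words `u ++ v` (past arm `u`, future arm `v`) the weighted number of points `y`
of the future arm, such that the past arm visits the box `y + D` at least twice and all its visits
to this box take place within time `M`, is bounded independently of the lengths of the arms, as
soon as the weights `a n` of the self-avoiding words of length `n` are bounded. Surgery: the piece
of the past arm between its first and its last visit is replaced by a path in the box through `y`.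
-/

set_option autoImplicit false

namespace Pool.Agent.SawNice

open Finset Pool.Agent.Bub4

variable {S V : Type} [Fintype S] [AddCommGroup V]

/-- any two distinct points of `D` are joined by a self-avoiding path in `D` through `0` -/
def Arc (Y : Sys S V) (D : Finset V) : Prop :=
  ∀ p ∈ D, ∀ q ∈ D, p ≠ q → ∃ b : List S, p + Y.sm b = q ∧ Y.Saw b ∧
    (∀ k ≤ b.length, p + Y.sm (b.take k) ∈ D) ∧ ∃ k ≤ b.length, p + Y.sm (b.take k) = 0

/-- The place of the past arm `u` at the index `i`, the origin being the junction, at the end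
of `u`. -/
def pa (Y : Sys S V) (u : List S) (i : ℕ) : V := - Y.sm (u.drop i)

/-- The place of the future arm `v` at time `t`. -/
def fu (Y : Sys S V) (v : List S) (t : ℕ) : V := Y.sm (v.take t)

/-- The past arm `u` visits the box `fu v t + D`, its first and its last visit (at the indices
`i` and `j`) are different and at most `M` steps apart. -/
def Nice (Y : Sys S V) (D : Finset V) (M : ℕ) (u v : List S) (t : ℕ) : Prop :=
  1 ≤ t ∧ t ≤ v.length ∧ ∃ i j, i < j ∧ j ≤ u.length ∧ j ≤ i + M ∧
    pa Y u i - fu Y v t ∈ D ∧ pa Y u j - fu Y v t ∈ D ∧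
    ∀ k ≤ u.length, pa Y u k - fu Y v t ∈ D → i ≤ k ∧ k ≤ j

section pos

variable (Y : Sys S V)

theorem saw_iff {w : List S} : Y.Saw w ↔
    ∀ i j, i < j → j ≤ w.length → Y.sm (w.take i) ≠ Y.sm (w.take j) := by
  constructor
  · intro h i j hij hj he
    have h1 : w.take j = w.take i ++ (w.take j).drop i := by
      conv_lhs => rw [← List.take_append_drop i (w.take j)]
      rw [List.take_take, min_eq_left hij.le]
    have h2 : Y.sm ((w.take j).drop i) = 0 := by
      have h3 := congrArg Y.sm h1
      rw [Y.sm_append, he] at h3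
      simpa using h3
    refine h ((w.take j).drop i) ?_ ?_ h2
    · exact (List.drop_suffix _ _).isInfix.trans (List.take_prefix _ _).isInfix
    · intro h3
      have := congrArg List.length h3
      simp only [List.length_drop, List.length_take, List.length_nil] at this
      omega
  · intro h b hb hne h0
    obtain ⟨s, t, rfl⟩ := hb
    have h1 : 0 < b.length := List.length_pos_iff.2 hne
    refine h s.length (s.length + b.length) (by omega) ?_ ?_
    · simp only [List.length_append]; omega
    · have e1 : (s ++ b ++ t).take s.length = s := by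
        rw [List.append_assoc, List.take_left]
      have e2 : (s ++ b ++ t).take (s.length + b.length) = s ++ b := by
        rw [← List.length_append, List.take_left]
      rw [e1, e2, Y.sm_append, h0, add_zero]

theorem sm_take_drop (w : List S) (i : ℕ) : Y.sm (w.take i) + Y.sm (w.drop i) = Y.sm w := by
  rw [← Y.sm_append, List.take_append_drop]

theorem pa_eq (u : List S) (i : ℕ) : pa Y u i = Y.sm (u.take i) - Y.sm u := by
  unfold pa
  rw [← sm_take_drop Y u i]
  abel

theorem pa_length (u : List S) : pa Y u u.length = 0 := by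
  unfold pa; simp

theorem fu_zero (v : List S) : fu Y v 0 = 0 := by unfold fu; simp

theorem saw_pa {u : List S} (h : Y.Saw u) {i j : ℕ} (hi : i ≤ u.length) (hj : j ≤ u.length)
    (he : pa Y u i = pa Y u j) : i = j := by
  rw [pa_eq, pa_eq, sub_left_inj] at he
  rw [saw_iff] at h
  rcases lt_trichotomy i j with h1 | h1 | h1
  · exact absurd he (h i j h1 hj)
  · exact h1
  · exact absurd he.symm (h j i h1 hi)

theorem saw_fu {v : List S} (h : Y.Saw v) {i j : ℕ} (hi : i ≤ v.length) (hj : j ≤ v.length)
    (he : fu Y v i = fu Y v j) : i = j := by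
  unfold fu at he
  rw [saw_iff] at h
  rcases lt_trichotomy i j with h1 | h1 | h1
  · exact absurd he (h i j h1 hj)
  · exact h1
  · exact absurd he.symm (h j i h1 hi)

/-- the two arms of a self-avoiding word meet only at the junction -/
theorem saw_arms {u v : List S} (h : Y.Saw (u ++ v)) {i t : ℕ} (hi : i ≤ u.length) (ht : 1 ≤ t)
    (ht' : t ≤ v.length) : pa Y u i ≠ fu Y v t := by
  intro he
  rw [saw_iff] at h
  refine h i (u.length + t) (by omega) (by simp only [List.length_append]; omega) ?_
  have e : (u ++ v).take (u.length + t) = u ++ v.take t := by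
    rw [List.take_append]; simp
  rw [List.take_append_of_le_length hi, e, Y.sm_append]
  rw [pa_eq] at he
  unfold fu at he
  rw [← he]
  abel

/-- a word is self-avoiding if its places (seen from its end) are distinct -/
theorem saw_of_pa {u : List S} (h : ∀ i j, i < j → j ≤ u.length → pa Y u i ≠ pa Y u j) :
    Y.Saw u := by
  rw [saw_iff]
  intro i j hij hj he
  refine h i j hij hj ?_
  rw [pa_eq, pa_eq, he]

theorem pa_append_right {c a : List S} {i : ℕ} (hi : c.length ≤ i) :
    pa Y (c ++ a) i = pa Y a (i - c.length) := by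
  unfold pa
  rw [List.drop_append, List.drop_of_length_le hi, List.nil_append]

theorem pa_append_left {c a : List S} {i : ℕ} (hi : i ≤ c.length) :
    pa Y (c ++ a) i = pa Y c i - Y.sm a := by
  unfold pa
  rw [List.drop_append_of_le_length hi, Y.sm_append]
  abel

end pos

/-- the condition satisfied by the word after the surgery -/
def After (Y : Sys S V) (D : Finset V) (p : V) (u v : List S) (i t : ℕ) : Prop :=
  i ≤ u.length ∧ 1 ≤ t ∧ t ≤ v.length ∧ pa Y u i - fu Y v t = p ∧
    (∀ i' ≤ u.length, ∀ t' ≤ v.length, 1 ≤ t' → pa Y u i' = fu Y v t' →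
      fu Y v t' - fu Y v t ∈ D) ∧ ∃ i' ≤ u.length, pa Y u i' = fu Y v t

open Classical in
/-- multiplicity of the surgery -/
theorem after_card (Y : Sys S V) (D : Finset V) (p : V) {u v : List S} (hu : Y.Saw u)
    (hv : Y.Saw v) (m n : ℕ) :
    ∑ i ∈ range m, ∑ t ∈ range n, (if After Y D p u v i t then (1 : ℝ) else 0) ≤ D.card := by
  rw [← Finset.sum_product']
  rw [Finset.sum_boole]
  norm_cast
  set F := (range m ×ˢ range n).filter fun x => After Y D p u v x.1 x.2 with hF
  rcases F.eq_empty_or_nonempty with h0 | ⟨x0, hx0⟩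
  · rw [h0]; simp
  have h1 := (Finset.mem_filter.1 hx0).2
  obtain ⟨i', hi', he'⟩ := h1.2.2.2.2.2
  refine Finset.card_le_card_of_injOn (fun x => fu Y v x0.2 - fu Y v x.2) ?_ ?_
  · intro x hx
    have hx' := (Finset.mem_filter.1 hx).2
    exact hx'.2.2.2.2.1 i' hi' x0.2 h1.2.2.1 h1.2.1 he'
  · intro x hx y hy hxy
    have hx' := (Finset.mem_filter.1 hx).2
    have hy' := (Finset.mem_filter.1 hy).2
    have e1 : fu Y v x.2 = fu Y v y.2 := by simpa using hxy
    have e2 : x.2 = y.2 := saw_fu Y hv hx'.2.2.1 hy'.2.2.1 e1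
    have e3 : pa Y u x.1 = pa Y u y.1 := by
      have h2 := hx'.2.2.2.1
      have h3 := hy'.2.2.2.1
      rw [sub_eq_iff_eq_add] at h2 h3
      rw [h2, h3, e1]
    exact Prod.ext (saw_pa Y hu hx'.1 hy'.1 e3) e2

open Classical in
/-- the surgery -/
theorem surgery (Y : Sys S V) {D : Finset V} {c b a v β : List S} {t : ℕ} {p : V}
    (hw : Y.Saw (c ++ b ++ a ++ v)) (ht : 1 ≤ t) (ht' : t ≤ v.length)
    (hp : pa Y (c ++ b ++ a) c.length - fu Y v t = p)
    (hv : ∀ k ≤ (c ++ b ++ a).length, pa Y (c ++ b ++ a) k - fu Y v t ∈ D →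
      c.length ≤ k ∧ k ≤ c.length + b.length)
    (hβ : Y.sm β = Y.sm b) (hβs : Y.Saw β) (hβD : ∀ k ≤ β.length, p + Y.sm (β.take k) ∈ D)
    (hβ0 : ∃ k ≤ β.length, p + Y.sm (β.take k) = 0) :
    Y.Saw (c ++ β ++ a) ∧ Y.Saw v ∧ After Y D p (c ++ β ++ a) v c.length t := by
  set y := fu Y v t with hy
  have hv1 : Y.Saw v := hw.fac (List.suffix_append _ _).isInfix
  have hu1 : Y.Saw (c ++ b ++ a) := hw.fac (List.prefix_append _ _).isInfix
  -- places of the new word
  have P1 : ∀ k, k ≤ c.length → pa Y (c ++ β ++ a) k = pa Y (c ++ b ++ a) k := by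
    intro k hk
    rw [List.append_assoc, List.append_assoc, pa_append_left Y hk, pa_append_left Y hk,
      Y.sm_append, Y.sm_append, hβ]
  have P2 : ∀ k, k ≤ a.length → pa Y (c ++ β ++ a) (c.length + β.length + k) =
      pa Y (c ++ b ++ a) (c.length + b.length + k) := by
    intro k _
    rw [pa_append_right Y (by simp only [List.length_append]; omega),
      pa_append_right Y (by simp only [List.length_append]; omega)]
    congr 1
    simp only [List.length_append]
    omega
  have P3 : ∀ k, k ≤ β.length → pa Y (c ++ β ++ a) (c.length + k) - y =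
      p + Y.sm (β.take k) := by
    intro k hk
    rw [← hp, List.append_assoc, pa_append_right Y (by omega), Nat.add_sub_cancel_left,
      pa_append_left Y hk, pa_eq, List.append_assoc, pa_append_right Y le_rfl, Nat.sub_self,
      pa_append_left Y (Nat.zero_le _), pa_eq, hβ]
    simp only [List.take_zero, Y.sm_nil]
    abel
  -- where the new word is outside of the box
  have Q1 : ∀ k, k < c.length → pa Y (c ++ β ++ a) k - y ∉ D := by
    intro k hk h
    rw [P1 k hk.le] at h
    have := (hv k (by simp only [List.length_append]; omega) h).1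
    omega
  have Q2 : ∀ k, 0 < k → k ≤ a.length → pa Y (c ++ β ++ a) (c.length + β.length + k) - y ∉ D := by
    intro k hk hk' h
    rw [P2 k hk'] at h
    have := (hv _ (by simp only [List.length_append]; omega) h).2
    omega
  have Q3 : ∀ k, k ≤ β.length → pa Y (c ++ β ++ a) (c.length + k) - y ∈ D := by
    intro k hk
    rw [P3 k hk]
    exact hβD k hk
  -- trichotomy for the indices
  have cases : ∀ k, k ≤ (c ++ β ++ a).length → k < c.length ∨
      (∃ k', k' ≤ β.length ∧ k = c.length + k') ∨
      (∃ k', 0 < k' ∧ k' ≤ a.length ∧ k = c.length + β.length + k') := by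
    intro k hk
    simp only [List.length_append] at hk
    rcases lt_or_ge k c.length with h1 | h1
    · exact Or.inl h1
    · rcases le_or_gt k (c.length + β.length) with h2 | h2
      · exact Or.inr (Or.inl ⟨k - c.length, by omega, by omega⟩)
      · exact Or.inr (Or.inr ⟨k - (c.length + β.length), by omega, by omega, by omega⟩)
  refine ⟨?_, hv1, ?_⟩
  · refine saw_of_pa Y ?_
    intro i j hij hj he
    rcases cases i (hij.le.trans hj) with h1 | ⟨i', hi', rfl⟩ | ⟨i', hi0, hi', rfl⟩
    · rcases cases j hj with h2 | ⟨j', hj', rfl⟩ | ⟨j', hj0, hj', rfl⟩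
      · rw [P1 i h1.le, P1 j h2.le] at he
        have := saw_pa Y hu1 (by simp only [List.length_append]; omega)
          (by simp only [List.length_append]; omega) he
        omega
      · exact Q1 i h1 (he ▸ Q3 j' hj')
      · rw [P1 i h1.le, P2 j' hj'] at he
        have := saw_pa Y hu1 (by simp only [List.length_append]; omega)
          (by simp only [List.length_append]; omega) he
        omega
    · rcases cases j hj with h2 | ⟨j', hj', rfl⟩ | ⟨j', hj0, hj', rfl⟩
      · omega
      · have e1 := P3 i' hi'
        rw [he, P3 j' hj'] at e1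
        have e2 := add_left_cancel e1
        exact (saw_iff Y).1 hβs i' j' (by omega) hj' e2.symm
      · exact Q2 j' hj0 hj' (he ▸ Q3 i' hi')
    · rcases cases j hj with h2 | ⟨j', hj', rfl⟩ | ⟨j', hj0, hj', rfl⟩
      · omega
      · omega
      · rw [P2 i' hi', P2 j' hj'] at he
        have := saw_pa Y hu1 (by simp only [List.length_append]; omega)
          (by simp only [List.length_append]; omega) he
        omega
  · refine ⟨by simp only [List.length_append]; omega, ht, ht', ?_, ?_, ?_⟩
    · rw [P1 _ le_rfl]; exact hp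
    · intro i' hi' t' ht1 ht2 he
      rcases cases i' hi' with h1 | ⟨k, hk, rfl⟩ | ⟨k, hk0, hk, rfl⟩
      · rw [P1 i' h1.le] at he
        exact absurd he (saw_arms Y hw (by simp only [List.length_append]; omega) ht2 ht1)
      · rw [← he]; exact Q3 k hk
      · rw [P2 k hk] at he
        exact absurd he (saw_arms Y hw (by simp only [List.length_append]; omega) ht2 ht1)
    · obtain ⟨k, hk, hk0⟩ := hβ0
      refine ⟨c.length + k, by simp only [List.length_append]; omega, ?_⟩
      have := P3 k hk
      rw [hk0, sub_eq_zero] at this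
      exact this

/-- the mass of a fixed word is at most the total mass -/
theorem E_ins (Y : Sys S V) (β : List S) {F : List S → ℝ} (hF : ∀ w, 0 ≤ F w) (i k : ℕ) :
    (Y.E i fun c => Y.E k fun a => F (c ++ β ++ a)) ≤
      (Y.z ^ β.length)⁻¹ * Y.E (i + β.length + k) F := by
  have hz : 0 < Y.z ^ β.length := pow_pos Y.z_pos _
  rw [← div_eq_inv_mul, le_div_iff₀ hz, ← Y.E_mul_right, Y.E_add, Y.E_add]
  refine Y.E_mono fun c _ => ?_
  have key : ∀ (β : List S) (G : List S → ℝ), (∀ w, 0 ≤ G w) →
      G β * Y.z ^ β.length ≤ Y.E β.length G := by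
    intro β
    induction β with
    | nil => intro G _; simp
    | cons s β ih =>
      intro G hG
      rw [List.length_cons, Y.E_succ, pow_succ]
      have h1 := ih (fun w => G (s :: w)) fun w => hG _
      have h2 : Y.E β.length (fun w => G (s :: w)) ≤
          ∑ s, Y.E β.length (fun w => G (s :: w)) :=
        Finset.single_le_sum (f := fun s => Y.E β.length (fun w => G (s :: w)))
          (fun s _ => Y.E_nonneg' fun w => hG _) (Finset.mem_univ s)
      have h3 := mul_le_mul_of_nonneg_left (h1.trans h2) Y.z_pos.le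
      calc G (s :: β) * (Y.z ^ β.length * Y.z) = Y.z * (G (s :: β) * Y.z ^ β.length) := by ring
        _ ≤ _ := h3
  have h1 := key β (fun x => Y.E k fun a => F (c ++ x ++ a)) fun w => Y.E_nonneg' fun _ => hF _
  exact h1

/-- the past arm is `c ++ b ++ a`; it visits the box `fu v t + D` for the first time at the start
of `b`, at `fu v t + p`, and for the last time at the end of `b` -/
def Bef (Y : Sys S V) (D : Finset V) (p : V) (c b a v : List S) (t : ℕ) : Prop :=
  1 ≤ t ∧ t ≤ v.length ∧ b ≠ [] ∧ pa Y (c ++ b ++ a) c.length - fu Y v t = p ∧ p ∈ D ∧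
    pa Y (c ++ b ++ a) (c.length + b.length) - fu Y v t ∈ D ∧
    ∀ k ≤ (c ++ b ++ a).length, pa Y (c ++ b ++ a) k - fu Y v t ∈ D →
      c.length ≤ k ∧ k ≤ c.length + b.length

open Classical in
/-- the contribution of a fixed removed piece `b` -/
theorem piece (Y : Sys S V) {D : Finset V} (hD : Arc Y D) {K : ℝ} (hK : ∀ n, Y.a n ≤ K)
    (b : List S) (p : V) : ∃ C : ℝ, 0 ≤ C ∧ ∀ m n,
      (∑ i ∈ range (m + 1), ∑ t ∈ range (n + 1), Y.E i fun c => Y.E (m - i) fun a => Y.E n fun v =>
        Y.sv (c ++ b ++ a ++ v) * (if Bef Y D p c b a v t then (1 : ℝ) else 0)) ≤ C := by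
  have hK0 : 0 ≤ K := (Y.a_nonneg 0).trans (hK 0)
  by_cases hpq : p ∈ D ∧ p + Y.sm b ∈ D ∧ p ≠ p + Y.sm b
  · obtain ⟨β, hβ, hβs, hβD, hβ0⟩ := hD p hpq.1 _ hpq.2.1 hpq.2.2
    rw [add_right_inj] at hβ
    have hz : 0 < Y.z ^ β.length := pow_pos Y.z_pos _
    refine ⟨(Y.z ^ β.length)⁻¹ * (D.card * (K * K)), by positivity, fun m n => ?_⟩
    set H : List S → List S → ℕ → ℕ → ℝ := fun u v i t =>
      Y.sv u * Y.sv v * (if After Y D p u v i t then (1 : ℝ) else 0) with hH
    have hH0 : ∀ u v i t, 0 ≤ H u v i t := fun u v i t =>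
      mul_nonneg (mul_nonneg (Y.sv_nonneg u) (Y.sv_nonneg v)) (by split_ifs <;> norm_num)
    have s1 : ∀ i ∈ range (m + 1), ∀ t ∈ range (n + 1),
        (Y.E i fun c => Y.E (m - i) fun a => Y.E n fun v =>
        Y.sv (c ++ b ++ a ++ v) * (if Bef Y D p c b a v t then (1 : ℝ) else 0)) ≤
        (Y.z ^ β.length)⁻¹ * Y.E (m + β.length) fun u => Y.E n fun v => H u v i t := by
      intro i hi t _
      have hi' : i ≤ m := Nat.lt_succ_iff.1 (Finset.mem_range.1 hi)
      have e1 : m + β.length = i + β.length + (m - i) := by omega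
      rw [e1]
      refine le_trans ?_ (E_ins Y β (F := fun u => Y.E n fun v => H u v i t)
        (fun u => Y.E_nonneg' fun v => hH0 _ _ _ _) i (m - i))
      refine Y.E_mono fun c hc => Y.E_mono fun a _ => Y.E_mono fun v _ => ?_
      by_cases hw : Y.Saw (c ++ b ++ a ++ v)
      · rw [Y.sv_of hw, one_mul]
        split_ifs with hcond
        · obtain ⟨k1, k2, k3, k4, k5, k6, k7⟩ := hcond
          obtain ⟨r1, r2, r3⟩ := surgery Y hw k1 k2 k4 k7 hβ hβs hβD hβ0
          rw [hc] at r3
          simp only [hH]
          rw [Y.sv_of r1, Y.sv_of r2, if_pos r3]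
          norm_num
        · exact hH0 _ _ _ _
      · rw [Y.sv_of_not hw, zero_mul]
        exact hH0 _ _ _ _
    refine (Finset.sum_le_sum fun i hi => Finset.sum_le_sum fun t ht => s1 i hi t ht).trans ?_
    simp only [← Finset.mul_sum]
    refine mul_le_mul_of_nonneg_left ?_ (inv_nonneg.2 hz.le)
    have s2 : (∑ i ∈ range (m + 1), ∑ t ∈ range (n + 1),
        Y.E (m + β.length) fun u => Y.E n fun v => H u v i t) =
        Y.E (m + β.length) fun u => Y.E n fun v =>
          ∑ i ∈ range (m + 1), ∑ t ∈ range (n + 1), H u v i t := by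
      simp only [Y.E_fsum]
    rw [s2]
    have s3 : (Y.E (m + β.length) fun u => Y.E n fun v =>
          ∑ i ∈ range (m + 1), ∑ t ∈ range (n + 1), H u v i t) ≤
        Y.E (m + β.length) fun u => Y.E n fun v => (D.card : ℝ) * (Y.sv u * Y.sv v) := by
      refine Y.E_mono fun u _ => Y.E_mono fun v _ => ?_
      simp only [hH, ← Finset.mul_sum]
      rw [mul_comm (D.card : ℝ)]
      by_cases hu : Y.Saw u
      · by_cases hv : Y.Saw v
        · exact mul_le_mul_of_nonneg_left (after_card Y D p hu hv _ _)
            (mul_nonneg (Y.sv_nonneg u) (Y.sv_nonneg v))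
        · rw [Y.sv_of_not hv]; simp
      · rw [Y.sv_of_not hu]; simp
    refine s3.trans ?_
    simp only [Y.E_mul_left]
    have s4 : (Y.E (m + β.length) fun u => Y.sv u * Y.E n fun v => Y.sv v) =
        Y.a (m + β.length) * Y.a n := by
      rw [Y.E_mul_right]
      rfl
    rw [s4]
    exact mul_le_mul_of_nonneg_left (mul_le_mul (hK _) (hK _) (Y.a_nonneg _) hK0)
      (Nat.cast_nonneg _)
  · refine ⟨0, le_rfl, fun m n => ?_⟩
    refine Finset.sum_nonpos fun i _ => Finset.sum_nonpos fun t _ => ?_
    refine le_of_le_of_eq (Y.E_mono (G := fun _ => 0) fun c hc => ?_) (Y.E_zero_fun _)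
    refine le_of_le_of_eq (Y.E_mono (G := fun _ => 0) fun a _ => ?_) (Y.E_zero_fun _)
    refine le_of_le_of_eq (Y.E_mono (G := fun _ => 0) fun v _ => ?_) (Y.E_zero_fun _)
    by_cases hw : Y.Saw (c ++ b ++ a ++ v)
    · rw [if_neg, mul_zero]
      rintro ⟨_, _, k3, k4, k5, k6, _⟩
      refine hpq ⟨k5, ?_, ?_⟩
      · have e1 : pa Y (c ++ b ++ a) (c.length + b.length) - fu Y v t = p + Y.sm b := by
          rw [← k4, pa_append_right Y (by simp only [List.length_append]; omega),
            List.append_assoc, pa_append_right Y le_rfl, Nat.sub_self, List.length_append,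
            Nat.sub_self, pa_append_left Y (Nat.zero_le _)]
          unfold pa
          simp only [List.drop_zero]
          abel
        rw [← e1]; exact k6
      · intro h0
        have h1 : Y.sm b = 0 := by
          have := h0.symm
          rwa [add_eq_left] at this
        refine hw b ?_ k3 h1
        exact ⟨c, a ++ v, by simp⟩
    · rw [Y.sv_of_not hw, zero_mul]

/-- the expectation of a constant -/
theorem E_const (Y : Sys S V) (n : ℕ) (c : ℝ) :
    (Y.E n fun _ => c) = (Y.z * Fintype.card S) ^ n * c := by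
  induction n with
  | zero => simp
  | succ n ih =>
    rw [Y.E_succ, ih, Finset.sum_const, Finset.card_univ, nsmul_eq_mul, pow_succ]
    ring

/-- the pieces of a word at a nice near-miss -/
theorem bef_of_nice (Y : Sys S V) {D : Finset V} {M : ℕ} {u v : List S} {t : ℕ}
    (h : Nice Y D M u v t) : ∃ l ≤ M, l ≤ u.length ∧ ∃ i ≤ u.length - l, ∃ p ∈ D,
      Bef Y D p (u.take i) ((u.drop i).take l) (u.drop (i + l)) v t := by
  obtain ⟨h1, h2, i, j, hij, hj, hM, hi1, hj1, hk⟩ := h
  refine ⟨j - i, by omega, by omega, i, by omega, pa Y u i - fu Y v t, hi1, ?_⟩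
  have e0 : u.take i ++ (u.drop i).take (j - i) ++ u.drop (i + (j - i)) = u := by
    rw [List.append_assoc, ← List.drop_drop, List.take_append_drop, List.take_append_drop]
  have e1 : (u.take i).length = i := by rw [List.length_take]; omega
  have e2 : ((u.drop i).take (j - i)).length = j - i := by
    rw [List.length_take, List.length_drop]; omega
  refine ⟨h1, h2, ?_, ?_, hi1, ?_, ?_⟩
  · intro h0
    rw [h0] at e2
    simp only [List.length_nil] at e2
    omega
  · rw [e0, e1]
  · rw [e0, e1, e2]
    have : i + (j - i) = j := by omega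
    rw [this]
    exact hj1
  · rw [e0, e1, e2]
    have : i + (j - i) = j := by omega
    rw [this]
    exact hk

open Classical in
/-- LEMMA N: the weighted number of nice near-misses of the two arms of self-avoiding words is
bounded. -/
theorem nice_bound (Y : Sys S V) {D : Finset V} (hD : Arc Y D) {K : ℝ} (hK : ∀ n, Y.a n ≤ K)
    (M : ℕ) : ∃ C : ℝ, 0 ≤ C ∧ ∀ m n, (Y.E m fun u => Y.E n fun v => Y.sv (u ++ v) *
      (((range (n + 1)).filter fun t => Nice Y D M u v t).card : ℝ)) ≤ C := by
  choose C hC0 hC using fun (b : List S) (p : V) => piece Y hD hK b p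
  refine ⟨∑ l ∈ range (M + 1), Y.E l fun b => ∑ p ∈ D, C b p,
    Finset.sum_nonneg fun l _ => Y.E_nonneg' fun b => Finset.sum_nonneg fun p _ => hC0 b p,
    fun m n => ?_⟩
  set f : List S → List S → ℕ → ℕ → V → ℕ → ℝ := fun u v l i p t =>
    Y.sv (u ++ v) * (if l ≤ m ∧ i ≤ m - l ∧
      Bef Y D p (u.take i) ((u.drop i).take l) (u.drop (i + l)) v t then (1 : ℝ) else 0) with hf
  have hf0 : ∀ u v l i p t, 0 ≤ f u v l i p t := fun u v l i p t =>
    mul_nonneg (Y.sv_nonneg _) (by split_ifs <;> norm_num)
  -- pointwise bound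
  have s1 : ∀ u v : List S, u.length = m →
      Y.sv (u ++ v) * (((range (n + 1)).filter fun t => Nice Y D M u v t).card : ℝ) ≤
      ∑ l ∈ range (M + 1), ∑ i ∈ range (m + 1), ∑ p ∈ D, ∑ t ∈ range (n + 1), f u v l i p t := by
    intro u v hu
    have e1 : ∑ l ∈ range (M + 1), ∑ i ∈ range (m + 1), ∑ p ∈ D, ∑ t ∈ range (n + 1),
        f u v l i p t = ∑ t ∈ range (n + 1), ∑ l ∈ range (M + 1), ∑ i ∈ range (m + 1), ∑ p ∈ D,
        f u v l i p t := by
      rw [Finset.sum_comm (s := range (n + 1)) (t := range (M + 1))]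
      refine Finset.sum_congr rfl fun l _ => ?_
      rw [Finset.sum_comm (s := range (n + 1)) (t := range (m + 1))]
      refine Finset.sum_congr rfl fun i _ => ?_
      rw [Finset.sum_comm (s := range (n + 1)) (t := D)]
    rw [e1, Finset.card_filter]
    push_cast
    rw [Finset.mul_sum]
    refine Finset.sum_le_sum fun t _ => ?_
    split_ifs with hn
    · obtain ⟨l, hl, hlu, i, hi, p, hp, hb⟩ := bef_of_nice Y hn
      rw [hu] at hlu hi
      have h1 : Y.sv (u ++ v) * 1 = f u v l i p t := by
        simp only [hf]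
        rw [if_pos ⟨hlu, hi, hb⟩]
      rw [h1]
      refine le_trans ?_ (Finset.single_le_sum (f := fun l => ∑ i ∈ range (m + 1), ∑ p ∈ D,
        f u v l i p t) (fun l _ => Finset.sum_nonneg fun i _ => Finset.sum_nonneg fun p _ =>
        hf0 _ _ _ _ _ _) (Finset.mem_range.2 (Nat.lt_succ_of_le hl)))
      refine le_trans ?_ (Finset.single_le_sum (f := fun i => ∑ p ∈ D,
        f u v l i p t) (fun i _ => Finset.sum_nonneg fun p _ => hf0 _ _ _ _ _ _)
        (Finset.mem_range.2 (show i < m + 1 by omega)))
      exact Finset.single_le_sum (f := fun p => f u v l i p t) (fun p _ => hf0 _ _ _ _ _ _) hp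
    · rw [mul_zero]
      exact Finset.sum_nonneg fun l _ => Finset.sum_nonneg fun i _ => Finset.sum_nonneg fun p _ =>
        hf0 _ _ _ _ _ _
  refine (Y.E_mono fun u hu => Y.E_mono fun v _ => s1 u v hu).trans ?_
  simp only [Y.E_fsum]
  refine Finset.sum_le_sum fun l _ => ?_
  by_cases hl : l ≤ m
  · -- restrict the range of `i`
    have s2 : ∑ i ∈ range (m + 1), ∑ p ∈ D, ∑ t ∈ range (n + 1),
        (Y.E m fun u => Y.E n fun v => f u v l i p t) =
        ∑ i ∈ range (m - l + 1), ∑ p ∈ D, ∑ t ∈ range (n + 1),
        (Y.E m fun u => Y.E n fun v => f u v l i p t) := by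
      symm
      refine Finset.sum_subset ?_ ?_
      · intro i hi
        rw [Finset.mem_range] at hi ⊢
        omega
      · intro i _ hi
        rw [Finset.mem_range, not_lt] at hi
        refine Finset.sum_eq_zero fun p _ => Finset.sum_eq_zero fun t _ => ?_
        have : (fun u => Y.E n fun v => f u v l i p t) = fun _ => 0 := by
          funext u
          have h1 : (fun v => f u v l i p t) = fun _ => 0 := by
            funext v
            simp only [hf]
            rw [if_neg (fun h => absurd h.2.1 (by omega)), mul_zero]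
          rw [h1, Y.E_zero_fun]
        rw [this, Y.E_zero_fun]
    rw [s2]
    -- decompose
    have s3 : ∀ i ∈ range (m - l + 1), ∀ p ∈ D, ∀ t ∈ range (n + 1),
        (Y.E m fun u => Y.E n fun v => f u v l i p t) =
        Y.E l fun b => Y.E i fun c => Y.E (m - l - i) fun a => Y.E n fun v =>
          Y.sv (c ++ b ++ a ++ v) * (if Bef Y D p c b a v t then (1 : ℝ) else 0) := by
      intro i hi p _ t _
      rw [Finset.mem_range] at hi
      have e1 : m = i + l + (m - l - i) := by omega
      have e2 : (Y.E m fun u => Y.E n fun v => f u v l i p t) =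
          Y.E (i + l + (m - l - i)) fun u => Y.E n fun v => f u v l i p t := by rw [← e1]
      rw [e2, Y.E_add, Y.E_add, Y.E_comm]
      refine Y.E_congr fun b hb => Y.E_congr fun c hc => Y.E_congr fun a _ =>
        Y.E_congr fun v _ => ?_
      simp only [hf]
      have t1 : (c ++ b ++ a).take i = c := by
        rw [List.append_assoc, ← hc, List.take_left]
      have t2 : ((c ++ b ++ a).drop i).take l = b := by
        rw [List.append_assoc, ← hc, List.drop_left, ← hb, List.take_left]
      have t3 : (c ++ b ++ a).drop (i + l) = a := by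
        rw [← hc, ← hb, ← List.length_append, List.drop_left]
      rw [t1, t2, t3]
      congr 1
      have h2 : (l ≤ m ∧ i ≤ m - l ∧ Bef Y D p c b a v t) ↔ Bef Y D p c b a v t :=
        ⟨fun h => h.2.2, fun h => ⟨hl, by omega, h⟩⟩
      simp only [h2]
    rw [Finset.sum_congr rfl fun i hi => Finset.sum_congr rfl fun p hp =>
      Finset.sum_congr rfl fun t ht => s3 i hi p hp t ht]
    simp only [← Y.E_fsum]
    refine Y.E_mono fun b _ => ?_
    simp only [Y.E_fsum]
    rw [Finset.sum_comm]
    exact Finset.sum_le_sum fun p _ => hC b p (m - l) n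
  · refine le_trans (le_of_eq ?_)
      (Finset.sum_nonneg fun p _ => Y.E_nonneg' fun b => hC0 b p)
    refine Finset.sum_eq_zero fun i _ => Finset.sum_eq_zero fun p _ =>
      Finset.sum_eq_zero fun t _ => ?_
    have : (fun u => Y.E n fun v => f u v l i p t) = fun _ => 0 := by
      funext u
      have h1 : (fun v => f u v l i p t) = fun _ => 0 := by
        funext v
        simp only [hf]
        rw [if_neg (fun h => hl h.1), mul_zero]
      rw [h1, Y.E_zero_fun]
    rw [this, Y.E_zero_fun]

end Pool.Agent.SawNice
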